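import Pool.Agent.H19TQ.C

/-!
# Smooth intersections of two quadrics in `ℙ⁵` without points over a field of cohomological
# dimension one

The problem asks whether every smooth complete intersection of two quadrics in `ℙ⁵` over a field of
cohomological dimension one, of any characteristic, has a rational point.  The answer is no, by
fields of characteristic two.  Let `k₀` be a field of characteristic two, `κ = k₀(a₀, a₁, …)` and
`k` a maximal extension of odd degree of `κ(c)`.  The absolute Galois group of `k` is a pro-`2`
group, so that `cd k ≤ 1`, as the characteristic is two.  The quadratic form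
`f = a₀ x₀² + a₁ x₁² + (a₀ + a₂) x₂² + a₃ x₃² + (a₀ + a₂ + a₄) x₄² + a₅ x₅² + c (x₀ x₁ + x₂ x₃ + x₄ x₅)`
has no nontrivial zero over `k`, and `f = g = 0`, `g = x₀² + x₂² + x₄² + x₂ x₃ + c x₄ x₅`, is smooth.
-/

set_option autoImplicit false

open MvPolynomial Pool.Agent.Helper346.Cd Pool.Agent.H19TQ

namespace Pool.Agent.Results.MP_0f87c6_ag.CharacteristicTwo

/-- Every field `k₀` of characteristic two has an extension field `k` of cohomological dimension
one (at most one, and `k` is not separably closed), all of whose irreducible polynomials have
degree a power of two, with two quadratic forms `f`, `g` in six variables over `k` which define a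
smooth complete intersection of two quadrics in `ℙ⁵` without rational point.  Already `f` has no
nontrivial zero over `k`. -/
theorem result (k₀ : Type) [Field k₀] [CharP k₀ 2] :
    ∃ (k : Type) (_ : Field k) (_ : Algebra k₀ k), CharP k 2 ∧
    CdLeOne Gal(SeparableClosure k/k) ∧ ¬ IsSepClosed k ∧
    (∀ f : Polynomial k, Irreducible f → ∃ t, f.natDegree = 2 ^ t) ∧
    ∃ f g : MvPolynomial (Fin 6) k, IsSmoothIntersection f g ∧
      ∀ x : Fin 6 → k, aeval x f = 0 → x = 0 :=
  main k₀

end Pool.Agent.Results.MP_0f87c6_ag.CharacteristicTwo
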